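import Pool.Agent.Helper43.LS.Zones

/-!
# Project LS: a function of the canonical representative is invariant (LS-4)
-/

set_option autoImplicit false

namespace Pool.LS

theorem ka_v2 (e : Mon) (hz : z2 e) : ka (e.add v2) = ka e := by
  obtain ⟨e1, e2, e3, e4, e5⟩ := e
  simp only [z2] at hz
  have h : min (e2 + 1) 15 = min e2 15 := by omega
  simp only [ka, Mon.add, v2, h, Nat.add_zero]

theorem ka_v3 (e : Mon) (hz : z3 e) : ka (e.add v3) = ka e := by
  obtain ⟨e1, e2, e3, e4, e5⟩ := e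
  simp only [z3] at hz
  have h : min (e3 + 1) 13 = min e3 13 := by omega
  simp only [ka, Mon.add, v3, h, Nat.add_zero]

theorem ka_vS (e : Mon) (hz : zS e) : ka (e.add vS) = ka e := by
  obtain ⟨e1, e2, e3, e4, e5⟩ := e
  simp only [zS] at hz
  obtain ⟨h1, h5⟩ := hz
  have ht : min ((e1 + 5 * PM - 5 * PJ) / (5 * PM)) ((e5 + 3 * PM - 3 * PJ) / (3 * PM))
      = min ((e1 - 5 * PJ) / (5 * PM)) ((e5 - 3 * PJ) / (3 * PM)) + 1 := by omega
  simp only [ka, Mon.add, vS, ht, Nat.add_zero]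
  generalize min ((e1 - 5 * PJ) / (5 * PM)) ((e5 - 3 * PJ) / (3 * PM)) = t
  have ha : e1 + 5 * PM - 5 * PM * (t + 1) = e1 - 5 * PM * t := by omega
  have hb : e5 + 3 * PM - 3 * PM * (t + 1) = e5 - 3 * PM * t := by omega
  rw [ha, hb]

theorem ka_vE (e : Mon) (hr : Red 2 2 e) (hz : zE e) : ka (e.add vE) = ka e := by
  obtain ⟨e1, e2, e3, e4, e5⟩ := e
  simp only [zE] at hz
  obtain ⟨-, hr1, hr2⟩ := hr
  simp only at hr1 hr2
  have ht : min ((e1 + 2 - 5 * PJ) / (5 * PM)) ((e5 - 3 * PJ) / (3 * PM))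
      = min ((e1 - 5 * PJ) / (5 * PM)) ((e5 - 3 * PJ) / (3 * PM)) := by omega
  simp only [ka, Mon.add, vE, ht, Nat.add_zero]
  generalize htt : min ((e1 - 5 * PJ) / (5 * PM)) ((e5 - 3 * PJ) / (3 * PM)) = t
  have ha : 5 * PM * t ≤ e1 := by omega
  have hb : 3 * PM * t ≤ e5 := by omega
  obtain ⟨a, rfl⟩ := Nat.exists_eq_add_of_le ha
  obtain ⟨b, rfl⟩ := Nat.exists_eq_add_of_le hb
  have e1' : 5 * PM * t + a + 2 - 5 * PM * t = a + 2 := by omega
  have e2' : 5 * PM * t + a - 5 * PM * t = a := by omega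
  have e3' : 3 * PM * t + b - 3 * PM * t = b := by omega
  rw [e1', e2', e3']
  have hz' : (5 * b - min e2 15) + min e3 13 + 11 ≤ 3 * a := by omega
  generalize min e2 15 = c at *
  generalize min e3 13 = d at *
  have hn : (5 * b - c) + d + 17 ≤ 3 * (a + 2) := by omega
  rw [if_pos hn]
  by_cases hc : (5 * b - c) + d + 17 ≤ 3 * a
  · rw [if_pos hc]
    have : a + 2 - 2 * ((3 * (a + 2) - d - (5 * b - c) - 11) / 6)
        = a - 2 * ((3 * a - d - (5 * b - c) - 11) / 6) := by omega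
    rw [this]
  · rw [if_neg hc, if_neg (by omega)]
    have : a + 2 - 2 * ((3 * (a + 2) - d - (5 * b - c) - 11) / 6) = a := by omega
    rw [this]

theorem ka_vD (e : Mon) (hr : Red 2 2 e) (hz : zD e) : ka (e.add vD) = ka e := by
  obtain ⟨e1, e2, e3, e4, e5⟩ := e
  simp only [zD] at hz
  obtain ⟨-, hr1, hr2⟩ := hr
  simp only at hr1 hr2
  have ht : min ((e1 - 5 * PJ) / (5 * PM)) ((e5 + 1 - 3 * PJ) / (3 * PM))
      = min ((e1 - 5 * PJ) / (5 * PM)) ((e5 - 3 * PJ) / (3 * PM)) := by omega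
  simp only [ka, Mon.add, vD, ht, Nat.add_zero]
  generalize htt : min ((e1 - 5 * PJ) / (5 * PM)) ((e5 - 3 * PJ) / (3 * PM)) = t
  have ha : 5 * PM * t ≤ e1 := by omega
  have hb : 3 * PM * t ≤ e5 := by omega
  obtain ⟨a, rfl⟩ := Nat.exists_eq_add_of_le ha
  obtain ⟨b, rfl⟩ := Nat.exists_eq_add_of_le hb
  have e1' : 3 * PM * t + b + 1 - 3 * PM * t = b + 1 := by omega
  have e2' : 5 * PM * t + a - 5 * PM * t = a := by omega
  have e3' : 3 * PM * t + b - 3 * PM * t = b := by omega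
  rw [e1', e2', e3']
  have hz' : (3 * a - min e3 13) + min e2 15 + 10 ≤ 5 * b := by omega
  generalize min e2 15 = c at *
  generalize min e3 13 = d at *
  rw [if_neg (by omega), if_pos (by omega)]
  rw [if_neg (by omega)]
  by_cases hc : (3 * a - d) + c + 15 ≤ 5 * b
  · rw [if_pos hc]
    have : b + 1 - (5 * (b + 1) - c - (3 * a - d) - 10) / 5
        = b - (5 * b - c - (3 * a - d) - 10) / 5 := by omega
    rw [this]
  · rw [if_neg hc]
    have : b + 1 - (5 * (b + 1) - c - (3 * a - d) - 10) / 5 = b := by omega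
    rw [this]

theorem inv_ka {St : Type} (g : Mon → St) : Inv (fun e => g (ka e)) where
  invE e hr hz := by simp only [ka_vE e hr hz]
  invD e hr hz := by simp only [ka_vD e hr hz]
  inv2 e _ hz := by simp only [ka_v2 e hz]
  inv3 e _ hz := by simp only [ka_v3 e hz]
  invS e _ hz := by simp only [ka_vS e hz]

end Pool.LS
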